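import Pool.Agent.V8H71.TE.Main

/-!
# The Alperin–McKay–Navarro conjecture without wild inertia: characters with values in the cyclotomic
`ℤ_p`-extension of `ℚ_p` decide

`O` is a valuation subring of `ℂ` whose maximal ideal contains `p`; it defines the `p`-blocks of
finite groups. Let `CY_B` be the group of the `τ ∈ 𝓗_B` whose `(p-1)`-th power fixes all roots of
unity of `p`-power order. If `W` is the group of wild inertia, the automorphisms in `𝓗` which fix the
`p`-th roots of unity and the `m`-th roots of unity, `m` prime to `p`, then `𝓗_B` is the product of `W`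
and `CY_B` for odd `p`. So a bijection commuting with `CY_B` is a bijection as in the conjecture, up
to the commutation with `W`. In the Galois-stable blocks attached to `B` and to a subgroup `Δ` of
`CY_B` (see `ValuesInQp`) the characters of height zero fixed by `CY` are counted by
`S_t + (p^k - 1)/(p - 1) |Irr₀(B)^Δ|^{e_t}` with `e_t ≥ t`, `S_t ≤ A R^t`: here one needs that for every
automorphism in `CY` of a smaller group there is one in `CY` of the larger group which agrees with it
on the roots of unity of `p`-power order and on the `m`-th roots of unity. It exists, since the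
`r`-th cyclotomic polynomial, `r` prime to `p`, is irreducible over the field of all roots of unity of
`p`-power order, and since automorphisms of subfields extend to `ℂ`. For the parities these blocks
are combined with iterated wreath products `G ≀ C₂ ≀ ⋯ ≀ C₂`, as in `OddOrderParity`.
-/

set_option autoImplicit false

namespace Pool.Agent.Results.MP_7f1e7e_al.CyclotomicEquivariance

open Pool.Agent.Q259.BW Pool.Agent.Q288.MB Pool.Agent.N19.RB Pool.Agent.V8H71.QP
  Pool.Agent.V8H71.TE

/-- Let `p` be a prime and `C` a class of groups closed under isomorphisms, finite powers and direct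
products with elementary abelian `p`-groups.
(1) The following are equivalent. (a) For all `p`-blocks `B` with defect groups in `C` and Brauer
correspondents `b` there is a bijection `Irr₀(B) → Irr₀(b)` which commutes with all `τ ∈ 𝓗_B` whose
`(p-1)`-th power fixes all roots of unity of `p`-power order. (b) For all `p`-blocks with defect
groups in `C` which are equal to all their Galois conjugates, `Irr₀(B)` and `Irr₀(b)` contain the
same number of characters fixed by `CY` (for odd `p`, with values in the cyclotomic
`ℤ_p`-extension of `ℚ_p`). (c) These two numbers are comparable up to factors `K_ε |D| ^ ε`, for all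
`ε > 0`.
(2) Let `p` be odd. There are bijections `Irr₀(B) → Irr₀(b)` commuting with the elements of odd order
of this group, for all `p`-blocks `B` with defect groups in `C`, if and only if the numbers in (b)
have the same parity, for all `p`-blocks with defect groups in `C` which are equal to all their
Galois conjugates.
(3) The class of all finite `p`-groups and the class of all finite abelian `p`-groups have the
required closure properties. -/
theorem result (p : ℕ) [Fact p.Prime] (O : ValuationSubring ℂ) (hpO : (p : ℂ) ∈ O.nonunits) :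
    (∀ C : (D : Type) → Group D → Prop, ElClosed p C →
      ((∀ X : Dat, X.IsBrauer p O → C X.D inferInstance → AMNtame p X) ↔ EqualC p O C) ∧
      (EqualC p O C ↔ Sub p O C (nC p) (nC' p) ∧ Sub p O C (nC' p) (nC p))) ∧
    (p ≠ 2 → ∀ C : (D : Type) → Group D → Prop, ElClosed p C →
      ((∀ X : Dat, X.IsBrauer p O → C X.D inferInstance → AMNtameOdd p X) ↔ ParC p O C)) ∧
    ElClosed p (fun D _ => ∃ n : ℕ, Nat.card D = p ^ n) ∧
    ElClosed p (fun D _ => (∃ n : ℕ, Nat.card D = p ^ n) ∧ ∀ x y : D, x * y = y * x) := by
  refine ⟨fun C hC => main_tame hpO hC, fun hp2 C hC => main_odd hp2 hpO hC, ⟨⟨?_, ?_⟩, ?_⟩,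
    ⟨⟨?_, ?_⟩, ?_⟩⟩
  · rintro D E _ _ ⟨e⟩ ⟨n, hn⟩
    exact ⟨n, (Nat.card_congr e.toEquiv).symm.trans hn⟩
  · rintro D _ k ⟨n, hn⟩
    refine ⟨n * k, ?_⟩
    rw [Nat.card_fun, hn, Nat.card_fin, pow_mul]
  · rintro D _ k ⟨n, hn⟩
    refine ⟨n + k, ?_⟩
    rw [Nat.card_prod, hn, Nat.card_fun, Nat.card_fin, pow_add]
    congr 2
    exact Nat.card_zmod p
  · rintro D E _ _ ⟨e⟩ ⟨⟨n, hn⟩, h⟩
    refine ⟨⟨n, (Nat.card_congr e.toEquiv).symm.trans hn⟩, fun x y => e.symm.injective ?_⟩
    rw [map_mul, map_mul, h]
  · rintro D _ k ⟨⟨n, hn⟩, h⟩
    refine ⟨⟨n * k, ?_⟩, fun x y => funext fun i => h (x i) (y i)⟩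
    rw [Nat.card_fun, hn, Nat.card_fin, pow_mul]
  · rintro D _ k ⟨⟨n, hn⟩, h⟩
    refine ⟨⟨n + k, ?_⟩, fun x y => Prod.ext (h x.1 y.1) (mul_comm x.2 y.2)⟩
    rw [Nat.card_prod, hn, Nat.card_fun, Nat.card_fin, pow_add]
    congr 2
    exact Nat.card_zmod p

end Pool.Agent.Results.MP_7f1e7e_al.CyclotomicEquivariance
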