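import Pool.Agent.V8H71.OP.Main

/-!
# The Alperin–McKay–Navarro conjecture: the parity of the number of characters with values in `ℚ_p`
decides the equivariance with respect to automorphisms of odd order

`O` is a valuation subring of `ℂ` whose maximal ideal contains `p`; it defines the `p`-blocks of
finite groups. Let `p` be odd. For a subgroup `Δ` of the stabiliser `𝓗_B` there are Galois-stable
blocks whose numbers of `𝓗`-fixed characters of height zero differ by `p x^n`, where `x` is the
number of almost `p`-rational characters in `Irr₀(B)` fixed by `Δ`, and `n ≥ 1`. So the parities for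
Galois-stable blocks give the parity of `x`, for all blocks `B` and all `Δ ≤ 𝓗_B`. For automorphisms
of odd order this is applied to the blocks of the iterated wreath products `G ≀ C₂ ≀ ⋯ ≀ C₂`. The
automorphisms in `Δ` need not belong to `𝓗` of these larger groups; they are replaced by
automorphisms which agree with them on the `|G|`-th roots of unity and belong to `𝓗` of all these
groups, and the almost `p`-rational characters of these groups are the characters fixed by one more
set of automorphisms of odd order. If `x = x(G)` is the number for `G`, then
`x(G ≀ C₂) = (x² + 3x)/2`, and so the parities of these numbers for all the wreath products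
determine `x`. The numbers of fixed characters of all subgroups determine the permutation action.
Conversely, the characters fixed by `𝓗` are the fixed points of a `2`-group acting on the set of
characters fixed by all automorphisms of odd order.
-/

set_option autoImplicit false

namespace Pool.Agent.Results.MP_7f1e7e_al.OddOrderParity

open Pool.Agent.Q259.BW Pool.Agent.Q288.MB Pool.Agent.N19.RB Pool.Agent.V8H71.QP
  Pool.Agent.V8H71.OP

/-- Let `p` be an odd prime and `C` a class of groups closed under isomorphisms, finite powers and
direct products with elementary abelian `p`-groups.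
(1) The following are equivalent. (a) For all `p`-blocks `B` with defect groups in `C` and Brauer
correspondents `b` there is a bijection between the almost `p`-rational characters in `Irr₀(B)` and
in `Irr₀(b)` which commutes with all elements of odd order of `𝓗_B`. (b) For all `p`-blocks with
defect groups in `C` which are equal to all their Galois conjugates, the numbers of characters in
`Irr₀(B)` and in `Irr₀(b)` fixed by `𝓗` have the same parity.
(2) The following are equivalent. (a) For all `p`-blocks `B` with defect groups in `C` and Brauer
correspondents `b` there is a bijection `Irr₀(B) → Irr₀(b)` which commutes with all elements of odd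
order of `𝓗_B`. (b) For all `p`-blocks with defect groups in `C` which are equal to all their Galois
conjugates, and all subgroups `L` of `𝓗` with `𝓗 / L` a cyclic `p`-group, the numbers of characters
in `Irr₀(B)` and in `Irr₀(b)` fixed by `L` have the same parity.
(3) If all groups in `C` have exponent dividing `p`, then (2)(a) is equivalent to (1)(b).
(4) The class of all elementary abelian `p`-groups and the class of all groups of exponent dividing
`p` have the required closure properties. -/
theorem result (p : ℕ) [Fact p.Prime] (hp2 : p ≠ 2) (O : ValuationSubring ℂ)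
    (hpO : (p : ℂ) ∈ O.nonunits) :
    (∀ C : (D : Type) → Group D → Prop, ElClosed p C →
      ((∀ X : Dat, X.IsBrauer p O → C X.D inferInstance → AMNrOdd p X) ↔ ParQ p O C) ∧
      ((∀ X : Dat, X.IsBrauer p O → C X.D inferInstance → AMNodd p X) ↔ ParL p O C)) ∧
    (∀ C : (D : Type) → Group D → Prop, ElClosed p C →
      (∀ (D : Type) [i : Group D], C D i → ∀ d : D, d ^ p = 1) →
      ((∀ X : Dat, X.IsBrauer p O → C X.D inferInstance → AMNodd p X) ↔ ParQ p O C)) ∧
    ElClosed p (fun D _ => ∀ x y : D, x * y = y * x ∧ x ^ p = 1) ∧
    ElClosed p (fun D _ => ∀ x : D, x ^ p = 1) := by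
  have hz : ∀ (k : ℕ) (f : Fin k → Multiplicative (ZMod p)), f ^ p = 1 := by
    intro k f
    funext i
    change (f i) ^ p = 1
    rw [← ofAdd_toAdd (f i), ← ofAdd_nsmul, nsmul_eq_mul, CharP.cast_eq_zero, zero_mul]
    rfl
  refine ⟨fun C hC => ⟨main_apr hp2 hpO hC, main_full hp2 hpO hC⟩, fun C hC hexp =>
    main_exp hp2 hpO hC hexp, ⟨⟨?_, ?_⟩, ?_⟩, ⟨⟨?_, ?_⟩, ?_⟩⟩
  · rintro D E _ _ ⟨e⟩ h x y
    obtain ⟨h1, h2⟩ := h (e.symm x) (e.symm y)
    refine ⟨e.symm.injective ?_, e.symm.injective ?_⟩
    · rw [map_mul, map_mul, h1]
    · rw [map_pow, map_one, h2]
  · intro D _ n h x y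
    exact ⟨funext fun i => (h (x i) (y i)).1, funext fun i => (h (x i) (y i)).2⟩
  · intro D _ k h x y
    exact ⟨Prod.ext (h x.1 y.1).1 (mul_comm x.2 y.2), Prod.ext (h x.1 y.1).2 (hz k x.2)⟩
  · rintro D E _ _ ⟨e⟩ h x
    apply e.symm.injective
    rw [map_pow, map_one, h]
  · intro D _ n h x
    exact funext fun i => h (x i)
  · intro D _ k h x
    exact Prod.ext (h x.1) (hz k x.2)

end Pool.Agent.Results.MP_7f1e7e_al.OddOrderParity
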