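import Pool.Agent.V8H71.RL.Main

/-!
# The Alperin–McKay–Navarro conjecture is equivalent to its approximate version

`O` is a valuation subring of `ℂ` whose maximal ideal contains `p`; it defines the `p`-blocks of
finite groups. Let `B` be a `p`-block of `G` with defect group `D` and Brauer correspondent `b`, and
let `Δ` be a subgroup of the stabiliser `𝓗_B`. Let `m = |G|_{p'}`, `P = 𝔽_p^× × (ℤ/m)^×`, let `Q ≤ P` be
the group of pairs of exponents of the elements of `Δ` on the `p`-th and `m`-th roots of unity and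
`ι_t = P/Q × {0, …, t}`. In the group `W_{t,k} = (C_m × 𝔽_p^k × G^{ι_t}) ⋊ P` there is a Galois-stable
block `B_{t,k}` with defect group `D^{ι_t} × 𝔽_p^k`. The group `L_t` of automorphisms is the one of the
starting result `GaloisStableCyclic`, for the group `W_{t,k}`: it is contained in the group `𝓗` of
`W_{t,k}`, with a cyclic `p`-group as quotient if `p` is odd, and its elements with exponents in `Q` act on
the characters of `G` like the elements of `Δ`. The number of `L_t`-fixed characters of height zero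
in `B_{t,k}` is `S_t + (p^k - 1)/(p - 1) x^{e_t}`, where `x = |Irr₀(B)^Δ|`, `e_t ≥ t` is the number of orbits
of `L_t` on `ι_t`, and `S_t` is at most `A R^t`. For the Brauer correspondents one gets
`S'_t + (p^k - 1)/(p - 1) y^{e_t}` with `y = |Irr₀(b)^Δ|`. The orders of the defect groups grow
exponentially in `t` and `k`; for `k` equal to a large multiple of `t` the terms `S_t`, `S'_t` are
negligible, and if `x ≠ y` the quotient of the two numbers is larger than a positive power of
`|D_{t,k}|`.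
-/

set_option autoImplicit false

namespace Pool.Agent.Results.MP_7f1e7e_al.RoughComparison

open Pool.Agent.Q259.BW Pool.Agent.Q288.MB Pool.Agent.N19.RB Pool.Agent.V8H71.RL

/-- Let `p` be any prime. (1) Let `B` be a `p`-block of a finite group with defect group `D` and
Brauer correspondent `b`, and let `Δ` be a subgroup of `𝓗_B`. There are Galois-stable `p`-blocks
`B_{t,k}`, `t ≥ 0`, `k ≥ 1`, with defect groups `D^{l(t+1)} × 𝔽_p^k` and Brauer correspondents
`b_{t,k}`, and subgroups `L_t` of the groups `𝓗` belonging to them such that `𝓗/L_t` is a `p`-group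
(cyclic, if `p` is odd) and `|Irr₀(B_{t,k})^{L_t}| = S_t + (p^k - 1)/(p - 1) |Irr₀(B)^Δ|^{e_t}`,
`|Irr₀(b_{t,k})^{L_t}| = S'_t + (p^k - 1)/(p - 1) |Irr₀(b)^Δ|^{e_t}` with `e_t ≥ t`,
`S_t, S'_t ≤ A R^t`.
(2) Let `C` be a class of groups closed under isomorphisms, finite powers and direct products with
elementary abelian `p`-groups. The Alperin–McKay–Navarro conjecture holds for all `p`-blocks with
defect groups in `C` if and only if for all `ε > 0` the numbers `|Irr₀(B)^L|` and `|Irr₀(b)^L|` agree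
up to factors `K_ε |D| ^ ε`, for those of these blocks which are equal to all their Galois
conjugates and all subgroups `L ≤ 𝓗` such that `𝓗/L` is a `p`-group, cyclic if `p` is odd.
(3) The class of all groups whose order is a power of `p` has the required closure properties. -/
theorem result (p : ℕ) [Fact p.Prime] (O : ValuationSubring ℂ) (hpO : (p : ℂ) ∈ O.nonunits) :
    (∀ X : Dat, X.IsBrauer p O → ∀ Δ : Subgroup (ℂ ≃+* ℂ),
      (∀ δ ∈ Δ, δ ∈ HG p X.G ∧ gal δ X.B = X.B) →
      ∃ (Y : ℕ → ℕ → Dat) (L : ℕ → Subgroup (ℂ ≃+* ℂ)) (l A R : ℕ) (S S' e : ℕ → ℕ),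
        (∀ t, t ≤ e t) ∧ (∀ t, S t ≤ A * R ^ t) ∧ (∀ t, S' t ≤ A * R ^ t) ∧
        (∀ t k, 0 < k → (Y t k).IsBrauer p O ∧ (∀ σ : ℂ ≃+* ℂ, gal σ (Y t k).B = (Y t k).B) ∧
          PIndex p (Y t k).G (L t) ∧ Nonempty
            ((Y t k).D ≃* (Fin (l * (t + 1)) → X.D) × (Fin k → Multiplicative (ZMod p)))) ∧
        (∀ t k, (p - 1) * Nat.card (Fx (L t : Set (ℂ ≃+* ℂ)) ((Y t k).ht0 p)) =
          (p - 1) * S t + (p ^ k - 1) * (Nat.card (Fx (Δ : Set (ℂ ≃+* ℂ)) (X.ht0 p))) ^ e t) ∧
        (∀ t k, (p - 1) * Nat.card (Fx (L t : Set (ℂ ≃+* ℂ)) ((Y t k).ht0' p)) =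
          (p - 1) * S' t +
            (p ^ k - 1) * (Nat.card (Fx (Δ : Set (ℂ ≃+* ℂ)) (X.ht0' p))) ^ e t)) ∧
    (∀ C : (D : Type) → Group D → Prop, ElClosed p C →
      ((∀ X : Dat, X.IsBrauer p O → C X.D inferInstance → AMN p X) ↔ RoughL p O C)) ∧
    ElClosed p (fun D _ => ∃ n : ℕ, Nat.card D = p ^ n) := by
  refine ⟨fun X hX Δ hΔ => exists_famL hpO hX Δ hΔ, fun C hC => main_iff hpO hC,
    ⟨⟨?_, ?_⟩, ?_⟩⟩
  · rintro D E _ _ ⟨e⟩ ⟨n, hn⟩
    exact ⟨n, (Nat.card_congr e.toEquiv).symm.trans hn⟩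
  · rintro D _ k ⟨n, hn⟩
    refine ⟨n * k, ?_⟩
    rw [Nat.card_fun, hn, Nat.card_fin, pow_mul]
  · rintro D _ k ⟨n, hn⟩
    refine ⟨n + k, ?_⟩
    rw [Nat.card_prod, hn, Nat.card_fun, Nat.card_fin, pow_add]
    congr 2
    exact Nat.card_zmod p

end Pool.Agent.Results.MP_7f1e7e_al.RoughComparison
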