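import Pool.Agent.V8H71.QP.Main

/-!
# The Alperin–McKay–Navarro conjecture: characters with values in `ℚ_p` decide for defect groups of
exponent `p`, and rough comparability of their numbers suffices

`O` is a valuation subring of `ℂ` whose maximal ideal contains `p`; it defines the `p`-blocks of
finite groups. A character is almost `p`-rational if it has values in `ℚ_{pn}` for some `n` prime to
`p`. Let `B` be a `p`-block of `G` with defect group `D` and Brauer correspondent `b`, and let `Δ` be
a subgroup of the stabiliser of `B` in `𝓗`. Let `m = |G|_{p'}`, `P = 𝔽_p^× × (ℤ/m)^×`, let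
`Q ≤ P` be the group of pairs of exponents of the elements of `Δ` on the `p`-th and `m`-th roots of
unity and `ι = P/Q × {1, …, t}`. In the group `(C_m × 𝔽_p^k × G^ι) ⋊ P` there is a Galois-stable
block with defect group `D^ι × 𝔽_p^k` whose number of `𝓗`-fixed characters of height zero is
`S_t + (p^k - 1)/(p - 1) x^{nt}`, where `x` is the number of almost `p`-rational characters in
`Irr₀(B)` fixed by `Δ`, `n ≥ 1`, and `S_t` grows at most exponentially in `t`. The corresponding
number for its Brauer correspondent is `S'_t + (p^k - 1)/(p - 1) y^{nt}` with the number `y` for `b`.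
Letting `t` and `k` go to infinity one sees that subpolynomial comparability of these numbers implies
`x = y`. If `D` has exponent `p`, all characters in `B` are almost `p`-rational, since they vanish at
the elements whose `p`-part is not conjugate to an element of `D`; here this is proved by letting a
twisted class sum of a defect class act on a lattice.
-/

set_option autoImplicit false

namespace Pool.Agent.Results.MP_7f1e7e_al.ValuesInQp

open Pool.Agent.Q259.BW Pool.Agent.Q288.MB Pool.Agent.N19.RB Pool.Agent.V8H71.QP

/-- Let `p` be a prime and `C` a class of groups closed under isomorphisms, finite powers and direct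
products with elementary abelian `p`-groups.
(1) The following are equivalent. (a) For all `p`-blocks `B` with defect groups in `C` and Brauer
correspondents `b` there is a bijection between the almost `p`-rational characters in `Irr₀(B)` and
in `Irr₀(b)` which commutes with `𝓗_B`. (b) For all `p`-blocks with defect groups in `C` which are
equal to all their Galois conjugates, `Irr₀(B)` and `Irr₀(b)` contain the same number of characters
fixed by `𝓗`. (c) These two numbers are comparable up to factors `K_ε |D| ^ ε`, for all `ε > 0`.
(2) If all groups in `C` have exponent dividing `p`, then (b) (hence also (c)) is equivalent to the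
Alperin–McKay–Navarro conjecture for all `p`-blocks with defect groups in `C`.
(3) The class of all elementary abelian `p`-groups and the class of all groups of exponent dividing
`p` have the required closure properties. -/
theorem result (p : ℕ) [Fact p.Prime] (O : ValuationSubring ℂ) (hpO : (p : ℂ) ∈ O.nonunits) :
    (∀ C : (D : Type) → Group D → Prop, ElClosed p C →
      ((∀ X : Dat, X.IsBrauer p O → C X.D inferInstance → AMNr p X) ↔ EqualQ p O C) ∧
      (EqualQ p O C ↔ RoughQ p O C)) ∧
    (∀ C : (D : Type) → Group D → Prop, ElClosed p C →
      (∀ (D : Type) [i : Group D], C D i → ∀ d : D, d ^ p = 1) →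
      ((∀ X : Dat, X.IsBrauer p O → C X.D inferInstance → AMN p X) ↔ EqualQ p O C)) ∧
    ElClosed p (fun D _ => ∀ x y : D, x * y = y * x ∧ x ^ p = 1) ∧
    ElClosed p (fun D _ => ∀ x : D, x ^ p = 1) := by
  have hz : ∀ (k : ℕ) (f : Fin k → Multiplicative (ZMod p)), f ^ p = 1 := by
    intro k f
    funext i
    change (f i) ^ p = 1
    rw [← ofAdd_toAdd (f i), ← ofAdd_nsmul, nsmul_eq_mul, CharP.cast_eq_zero, zero_mul]
    rfl
  refine ⟨fun C hC => main_iff hpO hC, fun C hC hexp => ?_, ⟨⟨?_, ?_⟩, ?_⟩, ⟨⟨?_, ?_⟩, ?_⟩⟩
  · rw [← (main_iff hpO hC).1]
    exact forall₂_congr fun X hX => forall_congr' fun hD =>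
      amn_of_exp hpO X hX fun d => hexp X.D hD d
  · rintro D E _ _ ⟨e⟩ h x y
    obtain ⟨h1, h2⟩ := h (e.symm x) (e.symm y)
    refine ⟨e.symm.injective ?_, e.symm.injective ?_⟩
    · rw [map_mul, map_mul, h1]
    · rw [map_pow, map_one, h2]
  · intro D _ n h x y
    exact ⟨funext fun i => (h (x i) (y i)).1, funext fun i => (h (x i) (y i)).2⟩
  · intro D _ k h x y
    exact ⟨Prod.ext (h x.1 y.1).1 (mul_comm x.2 y.2), Prod.ext (h x.1 y.1).2 (hz k x.2)⟩
  · rintro D E _ _ ⟨e⟩ h x
    apply e.symm.injective
    rw [map_pow, map_one, h]
  · intro D _ n h x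
    exact funext fun i => h (x i)
  · intro D _ k h x
    exact Prod.ext (h x.1) (hz k x.2)

end Pool.Agent.Results.MP_7f1e7e_al.ValuesInQp
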